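import Pool.Agent.Lib.MP_a78e1f_lc.R.Iface
import Pool.Agent.Lib.MP_6d445e_gt.H38.Seq

/-!
Module SEQX (helper16): the sequence lemma for pairs `(X, Y)`.
Adapted from `MP_6d445e_gt/H38/Seq.lean` (helper38).
-/

universe u v w

open Cardinal Filter MeasureTheory

namespace Pool.Agent.Lib.MP_a78e1f_lc.H16

open Pool.Agent.Lib.MP_a78e1f_lc
open Pool.Agent.Lib.MP_100a6c_lc
open Pool.Agent.Lib.MP_c5d73d_lc.F (pr)
open Pool.Agent.Lib.MP_e6fef2_lc
open Pool.Agent.Lib.MP_6d445e_gt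
open Pool.Agent.Lib.MP_6d445e_gt.H38.SeqAux

theorem mix_le {B : Type u} [CompleteBooleanAlgebra B] {T : Type v} {d b : T → B}
    (hd : ∀ t t', t ≠ t' → d t ⊓ d t' = ⊥) (t : T) : d t ⊓ (⨆ t', d t' ⊓ b t') ≤ b t := by
  classical
  rw [inf_iSup_eq]
  refine iSup_le fun t' => ?_
  by_cases htt : t = t'
  · subst htt
    exact inf_le_right.trans inf_le_right
  · rw [← inf_assoc, hd t t' htt, bot_inf_eq]
    exact bot_le

theorem agr_le {B : Type u} [CompleteBooleanAlgebra B] {d z b : B}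
    (h : d ≤ (z ⊓ b) ⊔ (zᶜ ⊓ bᶜ)) : d ⊓ b ≤ z := by
  refine (inf_le_inf_right _ h).trans ?_
  rw [inf_sup_right]
  refine sup_le (inf_le_left.trans inf_le_left) ?_
  rw [inf_assoc, compl_inf_self, inf_bot_eq]
  exact bot_le

theorem seqx_aux (hD : DisjStatement.{u}) (hSla : SlaStatement.{u}) (hE : EvxStatement.{u})
    (hX : DixStatement.{u}) : SeqxStatement.{u} := by
  intro A T _
  classical
  choose dr hdr1 hdr2 hdr3 using hD (RA A) T
  -- the names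
  let ZZ : (ℕ → T → RA A) → (ℕ → T → ℕ → RA A) → ℕ → ℕ → RA A := fun w b k n =>
    ⨆ t, dr (w k) t ⊓ b k t n
  let SS : (ℕ → T → RA A) → (ℕ → T → ℕ → RA A) → ℕ → RA A := fun w b n =>
    (⨅ k, ⨆ t, w k t) ⊓ ⨆ k, ⨆ _ : k ≤ n.unpair.1 ^ 2, ZZ w b k n
  have hcl1 : ∀ᶠ N in club, ∀ (w : ℕ → T → RA A) (b : ℕ → T → ℕ → RA A), In N w → In N b →
      In N (SS w b) := all_club.2.2.2.2.2.2.1 _ _ _ SS
  have hcl2 : ∀ᶠ N in club, ∀ k : ℕ, ∀ (w : ℕ → T → RA A), In N w → In N (dr (w k)) :=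
    all_club.2.2.1 _ fun k => all_club.2.2.2.2.2.1 _ _ fun w : ℕ → T → RA A => dr (w k)
  have hcl3 : ∀ᶠ N in club, ∀ k n : ℕ, ∀ (w : ℕ → T → RA A) (b : ℕ → T → ℕ → RA A), In N w →
      In N b → In N (ZZ w b k n) :=
    all_club.2.2.1 _ fun k => all_club.2.2.1 _ fun n =>
      all_club.2.2.2.2.2.2.1 _ _ _ fun (w : ℕ → T → RA A) (b : ℕ → T → ℕ → RA A) => ZZ w b k n
  have hcl4 : ∀ᶠ N in club, ∀ k n : ℕ, ∀ (w : ℕ → T → RA A) (b : ℕ → T → ℕ → RA A), In N w →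
      In N b → In N (fun t => dr (w k) t ⊓ b k t n) :=
    all_club.2.2.1 _ fun k => all_club.2.2.1 _ fun n =>
      all_club.2.2.2.2.2.2.1 _ _ _ fun (w : ℕ → T → RA A) (b : ℕ → T → ℕ → RA A) =>
        fun t => dr (w k) t ⊓ b k t n
  have hcl5 : ∀ᶠ N in club, ∀ (w : ℕ → T → RA A), In N w → In N (fun k => ⨆ t, w k t) :=
    all_club.2.2.2.2.2.1 _ _ fun w : ℕ → T → RA A => fun k => ⨆ t, w k t
  have hcl6 : ∀ᶠ N in club, ∀ (w : ℕ → T → RA A), In N w → In N (⨅ k, ⨆ t, w k t) :=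
    all_club.2.2.2.2.2.1 _ _ fun w : ℕ → T → RA A => ⨅ k, ⨆ t, w k t
  have hcl7 : ∀ᶠ N in club, ∀ n : ℕ, ∀ (z : ℕ → RA A), In N z → In N (z n) :=
    all_club.2.2.1 _ fun n => all_club.2.2.2.2.2.1 _ _ fun z : ℕ → RA A => z n
  have hcl8 : ∀ᶠ N in club, ∀ k : ℕ, ∀ (w : ℕ → T → RA A) (t : T), In N w → In N t →
      In N (w k t) :=
    all_club.2.2.1 _ fun k => all_club.2.2.2.2.2.2.1 _ _ _ fun (w : ℕ → T → RA A) (t : T) =>
      w k t
  have hcl9 : ∀ᶠ N in club, ∀ k : ℕ, ∀ (w : ℕ → T → RA A) (t : T), In N w → In N t →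
      In N (dr (w k) t) :=
    all_club.2.2.1 _ fun k => all_club.2.2.2.2.2.2.1 _ _ _ fun (w : ℕ → T → RA A) (t : T) =>
      dr (w k) t
  have hcl10 : ∀ᶠ N in club, ∀ k n : ℕ, ∀ (b : ℕ → T → ℕ → RA A) (t : T), In N b → In N t →
      In N (b k t n) :=
    all_club.2.2.1 _ fun k => all_club.2.2.1 _ fun n =>
      all_club.2.2.2.2.2.2.1 _ _ _ fun (b : ℕ → T → ℕ → RA A) (t : T) => b k t n
  have hcl11 : ∀ᶠ N in club, ∀ (a a' : RA A), In N a → In N a' → In N (a ⊓ a') :=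
    all_club.2.2.2.2.2.2.1 _ _ _ fun (a a' : RA A) => a ⊓ a'
  have hcl12 : ∀ᶠ N in club, ∀ n : ℕ, ∀ (w : ℕ → T → RA A) (b : ℕ → T → ℕ → RA A), In N w →
      In N b → In N (SS w b n) :=
    all_club.2.2.1 _ fun n => all_club.2.2.2.2.2.2.1 _ _ _ fun (w : ℕ → T → RA A)
      (b : ℕ → T → ℕ → RA A) => SS w b n
  obtain ⟨-, hE2, hE3⟩ := hE A
  obtain ⟨hX1, hX2, -⟩ := hX A
  filter_upwards [hcl1, hcl2, hcl3, hcl4, hcl5, hcl6, hcl7, hcl8, hcl9, hcl10, hcl11, hcl12, hE2,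
    hE3 T, club_countable T, all_club.{u}.2.1] with N hN1 hN2 hN3 hN4 hN5 hN6 hN7 hN8 hN9 hN10
    hN11 hN12 hEv hEt hNc hNct w b z r hw hb hz hagr hsl X Y
  obtain ⟨-, sla2, -, sla4, sla5, sla6⟩ := hSla (RA A)
  set W : RA A := ⨅ k, ⨆ t, w k t with hW
  -- the name `SS w b` is a slalom
  have hS : Sl (SS w b) := by
    refine ⟨fun p => (p ^ 2 + 1) * r p, ?_⟩
    have h1 : ∀ k, SlOn r W (ZZ w b k) := by
      intro k
      have h2 : ∀ t, SlOn r (dr (w k) t) (ZZ w b k) := by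
        intro t
        refine sla4 r _ (b k t) _ (fun n => ?_) (sla2 r r (w k t) _ _ (fun _ => le_rfl)
          (hdr1 (w k) t) (hsl k t))
        exact mix_le (d := dr (w k)) (b := fun t => b k t n) (hdr2 (w k)) t
      have h3 := sla6 T _ r _ h2
      rw [hdr3] at h3
      exact sla2 r r _ _ _ (fun _ => le_rfl) (iInf_le _ k) h3
    have h4 := sla5 r W (ZZ w b) (fun p => p ^ 2) h1
    filter_upwards [h4] with g hg _ p
    by_cases hWg : W ∈ g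
    · refine le_trans (Set.encard_le_encard ?_) (hg hWg p)
      intro i hi
      exact g.mono inf_le_right hi
    · have : {i | SS w b (Nat.pair p i) ∈ g} = ∅ := by
        ext i
        simp only [Set.mem_ofPred_eq, Set.mem_empty_iff_false, iff_false]
        exact fun hi => hWg (g.mono inf_le_left hi)
      rw [this]
      simp
  have a1 := ae_cut Y
  have a2 := hX1 0 z Y X
  have a3 := hX2 N hNct X Y
  have a4 : ∀ᶠ g in ae A, ∀ n, disX n (SS w b) Y X ∈ g ↔ _ := ae_all fun n => hX1 n (SS w b) Y X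
  have a7 : ∀ᶠ g in ae A, ∀ t, In N t → ∀ k, disX 0 (b k t) Y X ∈ g ↔
      ∀ p, 0 ≤ p → ∀ i, ev X (b k t (Nat.pair p i)) ∈ g → Y (Nat.pair p i) ∉ g :=
    ae_all_in hNc fun t _ => ae_all fun k => hX1 0 (b k t) Y X
  filter_upwards [a1, a2, a3, a4, a7, hEv X, hEt X] with g a1 a2 a3 a4 a7 a8 a9 hgc hdis hsup m
  obtain ⟨hrn, hcut, hslal⟩ := a3.1 hgc
  have hev := a8 hrn
  have hbr := a9 hrn
  have hWg : ev X W ∈ g := (hev.iinf _ (hN5 w hw)).2 hsup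
  obtain ⟨n₀, hn₀⟩ := hslal _ (hN1 w b hw hb) hS
  rw [a4] at hn₀
  obtain ⟨K, hK, hKY⟩ := a1.1 hcut (max n₀ (max m 1))
  have hKn : n₀ ≤ K := (le_max_left _ _).trans hK
  have hKm : m ≤ K := (le_max_left _ _).trans ((le_max_right _ _).trans hK)
  have hK1 : 1 ≤ K := (le_max_right _ _).trans ((le_max_right _ _).trans hK)
  have hdis' := a2.1 hdis
  have claim : ∀ p i, ev X (ZZ w b (K ^ 2) (Nat.pair p i)) ∈ g → Y (Nat.pair p i) ∉ g := by
    intro p i h1 h2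
    rcases lt_or_ge p K with hp | hp
    · have hi : i < K := by
        by_contra hcon
        push Not at hcon
        exact hKY p hp i hcon h2
      have hlt : Nat.pair p i < K ^ 2 := by
        refine lt_of_lt_of_le (Nat.pair_lt_max_add_one_sq p i) ?_
        exact Nat.pow_le_pow_left (by omega) 2
      obtain ⟨t, htN, ht⟩ := hbr _ (hN4 (K ^ 2) (Nat.pair p i) w b hw hb) h1
      have h3 : dr (w (K ^ 2)) t ⊓ b (K ^ 2) t (Nat.pair p i) ≤ z (Nat.pair p i) := by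
        have h4 : dr (w (K ^ 2)) t ≤ (z (Nat.pair p i) ⊓ b (K ^ 2) t (Nat.pair p i)) ⊔
            ((z (Nat.pair p i))ᶜ ⊓ (b (K ^ 2) t (Nat.pair p i))ᶜ) :=
          (hdr1 _ t).trans ((hagr _ t).trans ((iInf_le _ (Nat.pair p i)).trans (iInf_le _ hlt)))
        exact agr_le h4
      have h5 : ev X (z (Nat.pair p i)) ∈ g :=
        hev.mono _ _ (hN11 _ _ (hN9 _ w t hw htN) (hN10 _ _ b t hb htN)) (hN7 _ z hz) h3 ht
      exact hdis' p (Nat.zero_le _) i h5 h2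
    · refine hn₀ p (hKn.trans hp) i ?_ h2
      have h6 : K ^ 2 ≤ (Nat.pair p i).unpair.1 ^ 2 := by
        rw [Nat.unpair_pair]
        exact Nat.pow_le_pow_left hp 2
      have h7 : W ⊓ ZZ w b (K ^ 2) (Nat.pair p i) ≤ SS w b (Nat.pair p i) :=
        inf_le_inf_left _ (le_iSup_of_le (K ^ 2) (le_iSup_of_le h6 le_rfl))
      have hNZ := hN3 (K ^ 2) (Nat.pair p i) w b hw hb
      have hNW : In N W := hN6 w hw
      exact hev.mono _ _ (hN11 _ _ hNW hNZ) (hN12 _ w b hw hb) h7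
        ((hev.inf _ _ hNW hNZ).2 ⟨hWg, h1⟩)
  have hsup' : ev X (⨆ t, dr (w (K ^ 2)) t) ∈ g := by
    rw [hdr3]
    exact hsup _
  obtain ⟨t, htN, ht⟩ := hbr _ (hN2 (K ^ 2) w hw) hsup'
  refine ⟨K ^ 2, ?_, t, htN, hev.mono _ _ (hN9 _ w t hw htN) (hN8 _ w t hw htN) (hdr1 _ t) ht, ?_⟩
  · have : K ≤ K ^ 2 := by nlinarith
    omega
  · rw [a7 t htN (K ^ 2)]
    intro p _ i h1
    refine claim p i ?_
    have hNd := hN9 (K ^ 2) w t hw htN
    have hNb := hN10 (K ^ 2) (Nat.pair p i) b t hb htN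
    exact hev.mono _ _ (hN11 _ _ hNd hNb) (hN3 _ _ w b hw hb)
      (le_iSup (fun t => dr (w (K ^ 2)) t ⊓ b (K ^ 2) t (Nat.pair p i)) t)
      ((hev.inf _ _ hNd hNb).2 ⟨ht, h1⟩)

/-- **SEQX** -/
theorem seqx (hE : EvxStatement.{u}) (hX : DixStatement.{u}) : SeqxStatement.{u} :=
  seqx_aux Pool.Agent.Lib.MP_6d445e_gt.H21.disj Pool.Agent.Lib.MP_6d445e_gt.H82.sla hE hX

end Pool.Agent.Lib.MP_a78e1f_lc.H16
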